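import Pool.Agent.Q120.RN.Sets

/-!
# The least summand in Cramér's model: numeric lemmas
-/

set_option autoImplicit false

namespace Pool.Agent.Q120.GB

open Finset MeasureTheory Filter Pool.Agent.Q120.ET Pool.Agent.Q120.MF Pool.Agent.Q120.PT Pool.Agent.Q120.AD
  Pool.Agent.Q120.RN

theorem tll : Tendsto (fun n : ℕ => Real.log (Real.log (n : ℝ))) atTop atTop := Real.tendsto_log_atTop.comp hl

/-- The scale `log^2 x log log x`. -/
noncomputable def g (x : ℕ) : ℝ := Real.log x ^ 2 * Real.log (Real.log x)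

theorem g_tendsto : Tendsto g atTop atTop := hl2.atTop_mul_atTop₀ tll

/-- The window length. -/
noncomputable def hh (κ : ℝ) (x : ℕ) : ℕ := ⌊κ * g x⌋₊

theorem hh_tendsto {κ : ℝ} (hκ : 0 < κ) : Tendsto (fun x => hh κ x) atTop atTop :=
  tendsto_nat_floor_atTop.comp (g_tendsto.const_mul_atTop hκ)

theorem log_hh_le {κ : ℝ} (hκ : 0 < κ) {δ : ℝ} (hδ : 0 < δ) :
    ∀ᶠ x : ℕ in atTop, Real.log (hh κ x) ≤ (2 + δ) * Real.log (Real.log x) := by
  have h0 : Tendsto (fun n : ℕ => Real.log (Real.log (Real.log (n : ℝ))) / Real.log (Real.log n)) atTop (nhds 0) :=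
    (Real.isLittleO_log_id_atTop.tendsto_div_nhds_zero).comp tll
  have h1 := h0.eventually_le_const (show 0 < δ / 2 by positivity)
  filter_upwards [h1, tll.eventually_ge_atTop 1, hl.eventually_ge_atTop 1, (hh_tendsto hκ).eventually_ge_atTop 1,
    tll.eventually_ge_atTop (2 * Real.log κ / δ)] with x h2 h3 h4 h5 h6
  have h7 : (hh κ x : ℝ) ≤ κ * (Real.log x ^ 2 * Real.log (Real.log x)) := by
    unfold hh g
    exact Nat.floor_le (by positivity)
  have h8 : Real.log (hh κ x) ≤ Real.log (κ * (Real.log x ^ 2 * Real.log (Real.log x))) :=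
    Real.log_le_log (by exact_mod_cast h5) h7
  rw [Real.log_mul hκ.ne' (by positivity), Real.log_mul (by positivity) (by positivity), Real.log_pow] at h8
  rw [div_le_iff₀ (by linarith)] at h2
  rw [div_le_iff₀ hδ] at h6
  push_cast at h8
  nlinarith

theorem le_log_hh {κ : ℝ} (hκ : 0 < κ) : ∀ᶠ x : ℕ in atTop, 2 * Real.log (Real.log x) ≤ Real.log (hh κ x) := by
  filter_upwards [tll.eventually_ge_atTop (2 / κ), hl.eventually_ge_atTop 1] with x h2 h4
  have h5 : Real.log x ^ 2 ≤ hh κ x := by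
    have h6 : κ * g x < hh κ x + 1 := Nat.lt_floor_add_one _
    unfold g at h6
    have h7 : 2 ≤ κ * Real.log (Real.log x) := by
      rw [div_le_iff₀ hκ] at h2
      linarith
    have h8 : (1 : ℝ) ≤ Real.log x ^ 2 := one_le_pow₀ h4
    nlinarith
  have h6 : Real.log (Real.log x ^ 2) ≤ Real.log (hh κ x) := Real.log_le_log (by positivity) h5
  rw [Real.log_pow] at h6
  push_cast at h6
  exact h6

theorem sum_inv_log_le {δ : ℝ} (hδ : 0 < δ) :
    ∀ᶠ h : ℕ in atTop, ∑ n ∈ Icc 3 h, 1 / Real.log (n : ℝ) ≤ (1 + δ) * (h / Real.log h) := by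
  obtain ⟨θ, hθ0, hθ1, hθ⟩ : ∃ θ : ℝ, 0 < θ ∧ θ < 1 ∧ 1 / θ = 1 + δ / 2 := by
    refine ⟨1 / (1 + δ / 2), by positivity, ?_, by rw [one_div_one_div]⟩
    rw [div_lt_one (by positivity)]
    linarith
  have h1 := ev_pow (2 / δ) (1 - θ) (by linarith)
  filter_upwards [h1, hl.eventually_ge_atTop 1, eventually_ge_atTop 3] with h h2 h3 h4
  have hh0 : (0 : ℝ) < h := by
    have : 0 < h := by omega
    exact_mod_cast this
  have h5 : ∀ n ∈ Icc 3 h, 1 / Real.log (n : ℝ) ≤ (if (n : ℝ) ≤ (h : ℝ) ^ θ then 1 else 0) + 1 / (θ * Real.log h) := by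
    intro n hn
    rw [mem_Icc] at hn
    have h6 := one_lt_log hn.1
    split_ifs with h7
    · have h8 : 1 / Real.log (n : ℝ) ≤ 1 := by
        rw [div_le_one (by linarith)]
        exact h6.le
      have h9 : 0 < 1 / (θ * Real.log h) := by positivity
      linarith
    · rw [zero_add]
      push Not at h7
      apply one_div_le_one_div_of_le (by positivity)
      have h8 := Real.log_le_log (Real.rpow_pos_of_pos hh0 θ) h7.le
      rwa [Real.log_rpow hh0] at h8
  refine (sum_le_sum h5).trans ?_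
  rw [sum_add_distrib, sum_const, Nat.card_Icc, nsmul_eq_mul, ← Finset.sum_filter, sum_const, nsmul_eq_mul, mul_one]
  have h6 : (((Icc 3 h).filter (fun n : ℕ => (n : ℝ) ≤ (h : ℝ) ^ θ)).card : ℝ) ≤ (h : ℝ) ^ θ := by
    have h7 : (Icc 3 h).filter (fun n : ℕ => (n : ℝ) ≤ (h : ℝ) ^ θ) ⊆ Icc 1 ⌊(h : ℝ) ^ θ⌋₊ := by
      intro n hn
      rw [mem_filter, mem_Icc] at hn
      rw [mem_Icc]
      exact ⟨by omega, Nat.le_floor hn.2⟩
    have h8 := card_le_card h7
    rw [Nat.card_Icc] at h8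
    have h9 : (⌊(h : ℝ) ^ θ⌋₊ : ℝ) ≤ (h : ℝ) ^ θ := Nat.floor_le (by positivity)
    have h10 : (((Icc 3 h).filter (fun n : ℕ => (n : ℝ) ≤ (h : ℝ) ^ θ)).card : ℝ) ≤ ⌊(h : ℝ) ^ θ⌋₊ := by
      exact_mod_cast (by omega : ((Icc 3 h).filter (fun n : ℕ => (n : ℝ) ≤ (h : ℝ) ^ θ)).card ≤ ⌊(h : ℝ) ^ θ⌋₊)
    linarith
  have h7 : ((h + 1 - 3 : ℕ) : ℝ) ≤ h := by exact_mod_cast (by omega : h + 1 - 3 ≤ h)
  have h8 : ((h + 1 - 3 : ℕ) : ℝ) * (1 / (θ * Real.log h)) ≤ (1 + δ / 2) * (h / Real.log h) := by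
    calc ((h + 1 - 3 : ℕ) : ℝ) * (1 / (θ * Real.log h)) ≤ h * (1 / (θ * Real.log h)) :=
          mul_le_mul_of_nonneg_right h7 (by positivity)
      _ = (1 / θ) * (h / Real.log h) := by field_simp
      _ = _ := by rw [hθ]
  have h9 : (h : ℝ) ^ θ ≤ δ / 2 * (h / Real.log h) := by
    have h10 : (h : ℝ) ^ θ * (h : ℝ) ^ (1 - θ) = h := by
      rw [← Real.rpow_add hh0]
      simp
    have h11 : 2 / δ * Real.log h ≤ (h : ℝ) ^ (1 - θ) := by
      refine le_trans ?_ h2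
      have h12 : Real.log h ≤ Real.log h ^ 3 := by nlinarith [sq_nonneg (Real.log (h : ℝ) - 1), mul_nonneg (show 0 ≤ Real.log (h : ℝ) by linarith) (show 0 ≤ Real.log (h : ℝ) - 1 by linarith)]
      exact mul_le_mul_of_nonneg_left h12 (by positivity)
    have h12 : (h : ℝ) ^ θ * (2 / δ * Real.log h) ≤ h :=
      (mul_le_mul_of_nonneg_left h11 (by positivity)).trans (le_of_eq h10)
    have h13 : δ / 2 * (h / Real.log h) = δ / 2 * h / Real.log h := by ring
    rw [h13, le_div_iff₀ (by linarith)]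
    have h14 : (h : ℝ) ^ θ * Real.log h = δ / 2 * ((h : ℝ) ^ θ * (2 / δ * Real.log h)) := by field_simp
    rw [h14]
    exact mul_le_mul_of_nonneg_left h12 (by positivity)
  linarith

end Pool.Agent.Q120.GB
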