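import Pool.Agent.Q120.GB.Upper

/-!
# The least summand in Cramér's model: lower bound
-/

set_option autoImplicit false

namespace Pool.Agent.Q120.GB

open Finset MeasureTheory Filter Pool.Agent.Q120.ET Pool.Agent.Q120.MF Pool.Agent.Q120.PT Pool.Agent.Q120.AD
  Pool.Agent.Q120.RN

variable {Ω : Type*} [MeasurableSpace Ω] {μ : Measure Ω} [IsProbabilityMeasure μ] {A : Ω → Set ℕ}

theorem g_double {ε : ℝ} (hε : 0 < ε) (hε1 : ε ≤ 1) : ∀ᶠ x : ℕ in atTop, ∀ N : ℕ, x < N → N ≤ 2 * x →
    (2 - ε) * g N < hh (2 - ε / 2) x := by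
  filter_upwards [tll.eventually_ge_atTop 1, hl.eventually_ge_atTop (16 / ε), eventually_ge_atTop 3,
    g_tendsto.eventually_ge_atTop (8 / ε ^ 2)] with x h1 h2 h3 h4 N h5 h6
  have hx0 : (0 : ℝ) < x := by
    have : 0 < x := by omega
    exact_mod_cast this
  obtain ⟨L, hL⟩ : ∃ L : ℝ, L = Real.log x := ⟨_, rfl⟩
  obtain ⟨l, hlL⟩ : ∃ l : ℝ, l = Real.log L := ⟨_, rfl⟩
  obtain ⟨η, hη⟩ : ∃ η : ℝ, η = ε / 16 := ⟨_, rfl⟩
  have hη0 : 0 < η := by rw [hη]; positivity
  rw [← hL] at h2
  rw [← hL, ← hlL] at h1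
  have hηL : 1 ≤ η * L := by
    rw [div_le_iff₀ hε] at h2
    rw [hη]
    linarith
  have hL0 : 0 < L := by
    by_contra hcon
    push Not at hcon
    nlinarith
  have h7 : Real.log N ≤ (1 + η) * L := by
    have h8 : Real.log N ≤ Real.log (2 * x) := by
      apply Real.log_le_log
      · have : 0 < N := by omega
        exact_mod_cast this
      · exact_mod_cast h6
    rw [Real.log_mul (by norm_num) hx0.ne', ← hL] at h8
    have := Real.log_two_lt_d9
    linarith
  have h8 : L ≤ Real.log N := by
    rw [hL]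
    exact Real.log_le_log hx0 (by exact_mod_cast h5.le)
  have h9 : Real.log (Real.log N) ≤ (1 + η) * l := by
    have h10 : Real.log (Real.log N) ≤ Real.log ((1 + η) * L) := Real.log_le_log (by linarith) h7
    rw [Real.log_mul (by positivity) hL0.ne', ← hlL] at h10
    have h11 := Real.log_le_sub_one_of_pos (show 0 < 1 + η by positivity)
    have h12 : η ≤ η * l := le_mul_of_one_le_right hη0.le h1
    linarith
  have h10 : g N ≤ (1 + η) ^ 3 * (L ^ 2 * l) := by
    unfold g
    have h11 : Real.log (N : ℝ) ^ 2 ≤ ((1 + η) * L) ^ 2 := pow_le_pow_left₀ (by linarith) h7 2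
    have h12 : Real.log (N : ℝ) ^ 2 * Real.log (Real.log N) ≤ ((1 + η) * L) ^ 2 * ((1 + η) * l) := by
      have h13 : l ≤ Real.log (Real.log N) := by rw [hlL]; exact Real.log_le_log hL0 h8
      exact mul_le_mul h11 h9 (by linarith) (by positivity)
    refine h12.trans (le_of_eq ?_)
    ring
  have h11 : (1 + η) ^ 3 ≤ 1 + ε / 4 := by
    rw [hη]
    nlinarith [sq_nonneg ε, pow_pos hε 3]
  have h12 : (2 - ε / 2) * g x < hh (2 - ε / 2) x + 1 := Nat.lt_floor_add_one _
  have hg : g x = L ^ 2 * l := by unfold g; rw [← hL, ← hlL]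
  rw [hg] at h12 h4
  have h13 : 2 ≤ ε ^ 2 / 4 * (L ^ 2 * l) := by
    rw [div_le_iff₀ (by positivity)] at h4
    linarith
  have hg0 : 0 ≤ L ^ 2 * l := by positivity
  have h14 : (2 - ε) * g N ≤ (2 - ε) * ((1 + ε / 4) * (L ^ 2 * l)) := by
    apply mul_le_mul_of_nonneg_left _ (by linarith)
    exact h10.trans (mul_le_mul_of_nonneg_right h11 hg0)
  have h15 : (2 - ε) * ((1 + ε / 4) * (L ^ 2 * l)) = (2 - ε / 2) * (L ^ 2 * l) - ε ^ 2 / 4 * (L ^ 2 * l) := by ring
  rw [h15] at h14
  linarith

/-- The probability that all the numbers of a sparse family are hit, for a given small part of the set. -/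
theorem real_given (hA : IsCramer μ A) {h x M : ℕ} {T : Finset ℕ} (hT : T ⊆ Icc 3 h) (hx : 2 ≤ Real.log x)
    (hhx : h < x) {m : ℝ} (hm : (T.card : ℝ) ≤ m) :
    μ.real {ω | tr A (Icc 3 h) ω = T ∧ ∀ i ∈ range M, ∃ a ∈ T, x + (i + 1) * (h + 1) - a ∈ A ω} ≤
      cramerOn (Icc 3 h) T * Real.exp (-(M * Real.exp (-(m * (1 / Real.log x + 2 / Real.log x ^ 2))))) := by
  classical
  have hx0 : (0 : ℝ) < x := by
    rcases Nat.eq_zero_or_pos x with h0 | h0
    · rw [h0] at hx
      simp at hx
      linarith
    · exact_mod_cast h0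
  have hx3 : 3 ≤ x := by
    by_contra hcon
    have h1 : Real.log x ≤ Real.log 2 := Real.log_le_log hx0 (by
      have : x ≤ 2 := by omega
      exact_mod_cast this)
    linarith [Real.log_two_lt_d9]
  obtain ⟨V, hV⟩ : ∃ V : ℕ → Finset ℕ, V = fun (i : ℕ) => T.image (fun a => x + (i + 1) * (h + 1) - a) := ⟨_, rfl⟩
  have hVm : ∀ i n, n ∈ V i → x + i * (h + 1) < n ∧ n < x + (i + 1) * (h + 1) := by
    intro i n hn
    rw [hV] at hn
    simp only [mem_image] at hn
    obtain ⟨a, ha, rfl⟩ := hn
    have h1 := mem_Icc.1 (hT ha)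
    have h2 : (i + 1) * (h + 1) = i * (h + 1) + (h + 1) := by ring
    omega
  have h1 := real_all hA (insertNone (range M)) (fun o => o.elim (Icc 3 h) V)
    (by
      intro o _ n hn
      cases o with
      | none =>
        simp only [Option.elim_none, mem_Icc] at hn
        exact hn.1
      | some i =>
        have h2 := hVm i n hn
        omega)
    (by
      intro o _ o' _ hoo
      rw [Finset.disjoint_left]
      intro n hn hn'
      cases o with
      | none =>
        cases o' with
        | none => exact hoo rfl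
        | some j =>
          have h2 := hVm j n hn'
          simp only [Option.elim_none, mem_Icc] at hn
          omega
      | some i =>
        cases o' with
        | none =>
          have h2 := hVm i n hn
          simp only [Option.elim_none, mem_Icc] at hn'
          omega
        | some j =>
          have h2 := hVm i n hn
          have h3 := hVm j n hn'
          apply hoo
          congr 1
          by_contra hij
          rcases Nat.lt_or_gt_of_ne hij with h4 | h4
          · have : (i + 1) * (h + 1) ≤ j * (h + 1) := Nat.mul_le_mul_right _ h4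
            omega
          · have : (j + 1) * (h + 1) ≤ i * (h + 1) := Nat.mul_le_mul_right _ h4
            omega)
    (fun o S => o.elim (S = T) (fun _ => ¬ S = ∅))
  have h2 : {ω | tr A (Icc 3 h) ω = T ∧ ∀ i ∈ range M, ∃ a ∈ T, x + (i + 1) * (h + 1) - a ∈ A ω} =
      {ω | ∀ o ∈ insertNone (range M), (fun (o : Option ℕ) (S : Finset ℕ) => o.elim (S = T) (fun _ => ¬ S = ∅)) o
        (tr A ((fun o : Option ℕ => o.elim (Icc 3 h) V) o) ω)} := by
    ext ω
    constructor
    · rintro ⟨h3, h4⟩ o ho
      cases o with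
      | none => exact h3
      | some i =>
        rw [some_mem_insertNone] at ho
        obtain ⟨a, ha, ha2⟩ := h4 i ho
        show ¬ tr A (V i) ω = ∅
        rw [← ne_eq, ← nonempty_iff_ne_empty]
        refine ⟨x + (i + 1) * (h + 1) - a, mem_tr.2 ⟨?_, ha2⟩⟩
        rw [hV]
        exact mem_image.2 ⟨a, ha, rfl⟩
    · intro h3
      refine ⟨h3 none none_mem_insertNone, fun i hi => ?_⟩
      have h4 : ¬ tr A (V i) ω = ∅ := h3 (some i) (some_mem_insertNone.2 hi)
      rw [← ne_eq, ← nonempty_iff_ne_empty] at h4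
      obtain ⟨n, hn⟩ := h4
      rw [mem_tr, hV] at hn
      obtain ⟨hn1, hn2⟩ := hn
      obtain ⟨a, ha, rfl⟩ := mem_image.1 hn1
      exact ⟨a, ha, hn2⟩
  rw [h2]
  refine (le_of_eq h1).trans ?_
  rw [prod_insertNone]
  have hT1 : ∀ inst : DecidablePred (fun S : Finset ℕ => S = T),
      ∑ S ∈ @Finset.filter _ (fun S => S = T) inst (Icc 3 h).powerset, cramerOn (Icc 3 h) S =
        cramerOn (Icc 3 h) T := by
    intro inst
    have h5 : (Icc 3 h).powerset.filter (fun S => S = T) = {T} := by
      ext S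
      rw [mem_filter, mem_singleton, mem_powerset]
      constructor
      · exact fun h => h.2
      · rintro rfl
        exact ⟨hT, rfl⟩
    rw [h5, sum_singleton]
  have hp : ∀ i, ∀ inst : DecidablePred (fun S : Finset ℕ => ¬ S = ∅),
      ∑ S ∈ @Finset.filter _ (fun S => ¬ S = ∅) inst (V i).powerset, cramerOn (V i) S ≤
      Real.exp (-Real.exp (-(m * (1 / Real.log x + 2 / Real.log x ^ 2)))) := by
    intro i inst
    have h4 : ∑ S ∈ (V i).powerset, cramerOn (V i) S = 1 := sum_cramerOn _
    have h5 : (V i).powerset.filter (fun S => S = ∅) = {∅} := by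
      ext S
      rw [mem_filter, mem_singleton, mem_powerset]
      constructor
      · exact fun h => h.2
      · rintro rfl
        exact ⟨empty_subset _, rfl⟩
    have h6 : ∑ S ∈ (V i).powerset.filter (fun S => S = ∅), cramerOn (V i) S +
        ∑ S ∈ @Finset.filter _ (fun S => ¬ S = ∅) inst (V i).powerset, cramerOn (V i) S =
        ∑ S ∈ (V i).powerset, cramerOn (V i) S :=
      sum_filter_add_sum_filter_not (V i).powerset (fun S => S = ∅) (fun S => cramerOn (V i) S)
    rw [h5, sum_singleton, h4] at h6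
    have h7 : cramerOn (V i) ∅ = pFree (V i) := by
      unfold cramerOn pFree
      simp
    have h8 := le_pFree (W := V i) hx hx0 (fun n hn => by
      have := hVm i n hn
      have h9 : x ≤ n := by omega
      exact_mod_cast h9)
    have h9 : Real.exp (-(m * (1 / Real.log x + 2 / Real.log x ^ 2))) ≤ pFree (V i) := by
      refine le_trans ?_ h8
      rw [Real.exp_le_exp]
      have h10 : ((V i).card : ℝ) ≤ m := by
        refine le_trans ?_ hm
        rw [hV]
        exact_mod_cast card_image_le
      have h11 : ((V i).card : ℝ) * (1 / Real.log x + 2 / Real.log x ^ 2) ≤ m * (1 / Real.log x + 2 / Real.log x ^ 2) :=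
        mul_le_mul_of_nonneg_right h10 (by positivity)
      linarith
    have h10 := Real.one_sub_le_exp_neg (Real.exp (-(m * (1 / Real.log x + 2 / Real.log x ^ 2))))
    rw [h7] at h6
    linarith
  have h0 : 0 ≤ cramerOn (Icc 3 h) T := cramerOn_nonneg (fun n hn => (mem_Icc.1 hn).1) hT
  have hexp : Real.exp (-(M * Real.exp (-(m * (1 / Real.log x + 2 / Real.log x ^ 2))))) =
      ∏ _i ∈ range M, Real.exp (-Real.exp (-(m * (1 / Real.log x + 2 / Real.log x ^ 2)))) := by
    rw [prod_const, card_range, ← Real.exp_nat_mul]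
    congr 1
    ring
  rw [hexp]
  simp only [Option.elim_none, Option.elim_some]
  refine mul_le_mul (le_of_eq (hT1 _)) (Finset.prod_le_prod (fun i hi => ?_) (fun i _ => hp i _))
    (prod_nonneg (fun i hi => ?_)) h0
  · refine sum_nonneg (fun S hS => ?_)
    rw [mem_filter, mem_powerset] at hS
    exact cramerOn_nonneg (fun n hn => by have := hVm i n hn; omega) hS.1
  · refine sum_nonneg (fun S hS => ?_)
    rw [mem_filter, mem_powerset] at hS
    exact cramerOn_nonneg (fun n hn => by have := hVm i n hn; omega) hS.1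

end Pool.Agent.Q120.GB
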