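import Pool.Agent.Q120.GB.Lower

/-!
# The least summand in Cramér's model: the exact order
-/

set_option autoImplicit false

namespace Pool.Agent.Q120.GB

open Finset MeasureTheory Filter Pool.Agent.Q120.ET Pool.Agent.Q120.MF Pool.Agent.Q120.PT Pool.Agent.Q120.AD
  Pool.Agent.Q120.RN

variable {Ω : Type*} [MeasurableSpace Ω] {μ : Measure Ω} [IsProbabilityMeasure μ] {A : Ω → Set ℕ}

/-- `Y = h / log h`. -/
noncomputable def YY (h : ℕ) : ℝ := h / Real.log h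

theorem hh_facts {ε : ℝ} (hε : 0 < ε) (hε1 : ε ≤ 1) : ∀ᶠ x : ℕ in atTop,
    (1 + ε / 8) * YY (hh (2 - ε / 2) x) ≤ (1 - ε / 8) * Real.log x ^ 2 ∧
      Real.log x ^ 2 / 3 ≤ YY (hh (2 - ε / 2) x) := by
  have hκ : 0 < 2 - ε / 2 := by linarith
  filter_upwards [le_log_hh hκ, log_hh_le hκ one_pos, tll.eventually_ge_atTop 1, hl.eventually_ge_atTop 1,
    g_tendsto.eventually_ge_atTop 4] with x h1 h2 h3 h4 h5
  obtain ⟨h, hh'⟩ : ∃ h : ℕ, h = hh (2 - ε / 2) x := ⟨_, rfl⟩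
  rw [← hh'] at h1 h2 ⊢
  obtain ⟨L, hL⟩ : ∃ L : ℝ, L = Real.log x := ⟨_, rfl⟩
  obtain ⟨l, hlL⟩ : ∃ l : ℝ, l = Real.log L := ⟨_, rfl⟩
  rw [← hL] at h4 ⊢
  rw [← hL, ← hlL] at h1 h2 h3
  have hg : g x = L ^ 2 * l := by unfold g; rw [← hL, ← hlL]
  have hl0 : 0 < Real.log (h : ℝ) := by linarith
  have hub : (h : ℝ) ≤ (2 - ε / 2) * (L ^ 2 * l) := by
    rw [hh', ← hg]
    exact Nat.floor_le (by rw [hg]; positivity)
  have hlb : (2 - ε / 2) * (L ^ 2 * l) < h + 1 := by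
    rw [hh', ← hg]
    exact Nat.lt_floor_add_one _
  rw [hg] at h5
  unfold YY
  constructor
  · rw [← mul_div_assoc, div_le_iff₀ hl0]
    have h6 : (1 + ε / 8) * (h : ℝ) ≤ (1 + ε / 8) * ((2 - ε / 2) * (L ^ 2 * l)) :=
      mul_le_mul_of_nonneg_left hub (by linarith)
    have h7 : (1 + ε / 8) * (2 - ε / 2) ≤ (1 - ε / 8) * 2 := by nlinarith
    have h8 : (1 + ε / 8) * ((2 - ε / 2) * (L ^ 2 * l)) ≤ (1 - ε / 8) * 2 * (L ^ 2 * l) := by
      rw [← mul_assoc]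
      exact mul_le_mul_of_nonneg_right h7 (by positivity)
    have h9 : (1 - ε / 8) * L ^ 2 * (2 * l) ≤ (1 - ε / 8) * L ^ 2 * Real.log h :=
      mul_le_mul_of_nonneg_left h1 (mul_nonneg (by linarith) (by positivity))
    nlinarith
  · rw [le_div_iff₀ hl0]
    have h6 : L ^ 2 / 3 * Real.log h ≤ L ^ 2 / 3 * ((2 + 1) * l) := mul_le_mul_of_nonneg_left h2 (by positivity)
    have h7 : L ^ 2 / 3 * ((2 + 1) * l) = L ^ 2 * l := by ring
    nlinarith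

/-- The number of elements up to `h` is rarely too large. -/
theorem tail_small (hA : IsCramer μ A) {ε : ℝ} (hε : 0 < ε) (hε1 : ε ≤ 1) : ∀ᶠ x : ℕ in atTop,
    μ.real {ω | ¬ (tr A (Icc 3 (hh (2 - ε / 2) x)) ω).card ≤ ⌊(1 + ε / 8) * YY (hh (2 - ε / 2) x)⌋₊} ≤
      (x : ℝ) ^ (-(2 : ℝ)) := by
  classical
  have hκ : 0 < 2 - ε / 2 := by linarith
  obtain ⟨δ, hδ⟩ : ∃ δ : ℝ, δ = ε / 32 := ⟨_, rfl⟩
  have hδ0 : 0 < δ := by rw [hδ]; positivity
  have hδ1 : δ ≤ 1 / 32 := by rw [hδ]; linarith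
  filter_upwards [hh_facts hε hε1, (hh_tendsto hκ).eventually (sum_inv_log_le hδ0),
    hl.eventually_ge_atTop (24 / δ ^ 2), eventually_ge_atTop 3] with x h1 h2 h3 h4
  obtain ⟨h, hh'⟩ : ∃ h : ℕ, h = hh (2 - ε / 2) x := ⟨_, rfl⟩
  rw [← hh'] at h1 h2 ⊢
  obtain ⟨Y, hY⟩ : ∃ Y : ℝ, Y = YY h := ⟨_, rfl⟩
  have h2' : ∑ n ∈ Icc 3 h, 1 / Real.log (n : ℝ) ≤ (1 + δ) * Y := by rw [hY]; exact h2
  rw [← hY] at h1 ⊢
  obtain ⟨L, hL⟩ : ∃ L : ℝ, L = Real.log x := ⟨_, rfl⟩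
  rw [← hL] at h1 h3
  obtain ⟨m, hm⟩ : ∃ m : ℕ, m = ⌊(1 + ε / 8) * Y⌋₊ := ⟨_, rfl⟩
  rw [← hm]
  have hx0 : (0 : ℝ) < x := by
    have : 0 < x := by omega
    exact_mod_cast this
  have hLbig : 24 ≤ δ ^ 2 * L := by
    rw [div_le_iff₀ (by positivity)] at h3
    linarith
  have hL1 : 1 ≤ L := by
    by_contra hcon
    push Not at hcon
    nlinarith [mul_pos hδ0 hδ0]
  have hY0 : 0 < Y := by
    have : 0 < L ^ 2 / 3 := by positivity
    linarith [h1.2]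
  have hm1 : (1 + 4 * δ) * Y - 1 ≤ m := by
    have := Nat.lt_floor_add_one ((1 + ε / 8) * Y)
    rw [← hm] at this
    rw [hδ]
    linarith
  have h5 := real_pred hA (W := Icc 3 h) (fun n hn => (mem_Icc.1 hn).1) (fun T => ¬ T.card ≤ m)
  have h6 := upper_tail (W := Icc 3 h) (fun n hn => (mem_Icc.1 hn).1) (show 1 ≤ 1 + δ by linarith) m
  have h7 : (1 / (1 + δ)) ^ m ≤ Real.exp (-(m * (δ / (1 + δ)))) := by
    have h8 : 1 / (1 + δ) = Real.exp (-Real.log (1 + δ)) := by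
      rw [Real.exp_neg, Real.exp_log (by positivity), one_div]
    rw [h8, ← Real.exp_nat_mul, Real.exp_le_exp]
    have h9 := Real.one_sub_inv_le_log_of_pos (show 0 < 1 + δ by positivity)
    have h10 : 1 - (1 + δ)⁻¹ = δ / (1 + δ) := by field_simp; ring
    rw [h10] at h9
    have h11 : (m : ℝ) * (δ / (1 + δ)) ≤ m * Real.log (1 + δ) := mul_le_mul_of_nonneg_left h9 (Nat.cast_nonneg m)
    linarith
  have h8 : Real.exp (-((1 - (1 + δ)) * ∑ n ∈ Icc 3 h, 1 / Real.log (n : ℝ))) ≤ Real.exp (δ * ((1 + δ) * Y)) := by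
    rw [Real.exp_le_exp]
    have : -((1 - (1 + δ)) * ∑ n ∈ Icc 3 h, 1 / Real.log (n : ℝ)) = δ * ∑ n ∈ Icc 3 h, 1 / Real.log (n : ℝ) := by ring
    rw [this]
    exact mul_le_mul_of_nonneg_left h2' hδ0.le
  have h9 : (x : ℝ) ^ (-(2 : ℝ)) = Real.exp (-(2 * L)) := by
    rw [Real.rpow_def_of_pos hx0, ← hL]
    congr 1
    ring
  calc μ.real {ω | ¬ (tr A (Icc 3 h) ω).card ≤ m} = ∑ T ∈ (Icc 3 h).powerset with ¬ T.card ≤ m, cramerOn (Icc 3 h) T := h5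
    _ ≤ (1 / (1 + δ)) ^ m * Real.exp (-((1 - (1 + δ)) * ∑ n ∈ Icc 3 h, 1 / Real.log (n : ℝ))) := h6
    _ ≤ Real.exp (-(m * (δ / (1 + δ)))) * Real.exp (δ * ((1 + δ) * Y)) :=
        mul_le_mul h7 h8 (Real.exp_pos _).le (Real.exp_pos _).le
    _ = Real.exp (-(m * (δ / (1 + δ))) + δ * ((1 + δ) * Y)) := (Real.exp_add _ _).symm
    _ ≤ Real.exp (-(2 * L)) := by
        rw [Real.exp_le_exp]
        have h10 : ((1 + 4 * δ) * Y - 1) * (δ / (1 + δ)) ≤ m * (δ / (1 + δ)) :=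
          mul_le_mul_of_nonneg_right hm1 (by positivity)
        have h11 : 2 * L ≤ ((1 + 4 * δ) * Y - 1) * (δ / (1 + δ)) - δ * ((1 + δ) * Y) := by
          have h12 : ((1 + 4 * δ) * Y - 1) * (δ / (1 + δ)) - δ * ((1 + δ) * Y) =
              δ * (((1 + 4 * δ) - (1 + δ) ^ 2) * Y - 1) / (1 + δ) := by
            field_simp
            ring
          rw [h12, le_div_iff₀ (by positivity)]
          have h13 : δ * Y ≤ ((1 + 4 * δ) - (1 + δ) ^ 2) * Y := by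
            apply mul_le_mul_of_nonneg_right _ hY0.le
            nlinarith
          have h14 : δ * (δ * Y - 1) ≤ δ * (((1 + 4 * δ) - (1 + δ) ^ 2) * Y - 1) :=
            mul_le_mul_of_nonneg_left (by linarith) hδ0.le
          refine le_trans ?_ h14
          have h15 : δ ^ 2 * (L ^ 2 / 3) ≤ δ ^ 2 * Y := mul_le_mul_of_nonneg_left h1.2 (by positivity)
          have h16 : 24 * L ≤ δ ^ 2 * L ^ 2 := by nlinarith
          nlinarith
        linarith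
    _ = (x : ℝ) ^ (-(2 : ℝ)) := h9.symm

theorem numeric_low {ε : ℝ} (hε : 0 < ε) (hε1 : ε ≤ 1) : ∀ᶠ x : ℕ in atTop,
    Real.exp (-(((x / (hh (2 - ε / 2) x + 1) : ℕ) : ℝ) *
      Real.exp (-((1 + ε / 8) * YY (hh (2 - ε / 2) x) * (1 / Real.log x + 2 / Real.log x ^ 2))))) ≤
        (x : ℝ) ^ (-(2 : ℝ)) := by
  have hκ : 0 < 2 - ε / 2 := by linarith
  filter_upwards [hh_facts hε hε1, ev_hh_small hκ, hl.eventually_ge_atTop 1, tll.eventually_ge_atTop 1,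
    eventually_ge_atTop 3, loglog_le, ev_pow (12 * Real.exp 2) (ε / 16) (by positivity),
    ev_pow 1 (ε / 16) (by positivity)] with x h1 h2 h3 h4 h5 h6 h7 h8
  obtain ⟨h, hh'⟩ : ∃ h : ℕ, h = hh (2 - ε / 2) x := ⟨_, rfl⟩
  have hub : (h : ℝ) ≤ (2 - ε / 2) * g x := by
    rw [hh']
    exact Nat.floor_le (by unfold g; positivity)
  rw [← hh'] at h1 h2 ⊢
  unfold g at hub
  obtain ⟨L, hL⟩ : ∃ L : ℝ, L = Real.log x := ⟨_, rfl⟩
  rw [← hL] at h1 h3 h4 h6 h7 h8 hub ⊢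
  have hx0 : (0 : ℝ) < x := by
    have : 0 < x := by omega
    exact_mod_cast this
  have h9 : (x : ℝ) ^ (-(2 : ℝ)) = Real.exp (-(2 * L)) := by
    rw [Real.rpow_def_of_pos hx0, ← hL]
    congr 1
    ring
  rw [h9, Real.exp_le_exp]
  have hM : (x : ℝ) / (2 * (h + 1)) ≤ ((x / (h + 1) : ℕ) : ℝ) := by
    have e2 := Nat.div_add_mod x (h + 1)
    have e3 := Nat.mod_lt x (Nat.succ_pos h)
    have e4 : x < (x / (h + 1) + 1) * (h + 1) := by nlinarith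
    have e5 : (x : ℝ) < ((x / (h + 1) : ℕ) + 1) * (h + 1) := by exact_mod_cast e4
    have e6 : (x : ℝ) / (h + 1) < ((x / (h + 1) : ℕ) : ℝ) + 1 := by
      rw [div_lt_iff₀ (by positivity)]
      exact e5
    have e7 : 1 ≤ (x : ℝ) / (2 * (h + 1)) := by
      rw [le_div_iff₀ (by positivity)]
      linarith
    have e8 : (x : ℝ) / (h + 1) = x / (2 * (h + 1)) + x / (2 * (h + 1)) := by field_simp; ring
    linarith
  have hexp : Real.exp (-2) * (x : ℝ) ^ (-(1 - ε / 8)) ≤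
      Real.exp (-((1 + ε / 8) * YY h * (1 / L + 2 / L ^ 2))) := by
    rw [Real.rpow_def_of_pos hx0, ← hL, ← Real.exp_add, Real.exp_le_exp]
    have e1 : (1 + ε / 8) * YY h * (1 / L + 2 / L ^ 2) ≤ (1 - ε / 8) * L ^ 2 * (1 / L + 2 / L ^ 2) :=
      mul_le_mul_of_nonneg_right h1.1 (by positivity)
    have e2 : (1 - ε / 8) * L ^ 2 * (1 / L + 2 / L ^ 2) = (1 - ε / 8) * L + 2 * (1 - ε / 8) := by
      field_simp
    rw [e2] at e1
    linarith
  have hprod : (x : ℝ) / (2 * (h + 1)) * (Real.exp (-2) * (x : ℝ) ^ (-(1 - ε / 8))) ≤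
      ((x / (h + 1) : ℕ) : ℝ) * Real.exp (-((1 + ε / 8) * YY h * (1 / L + 2 / L ^ 2))) :=
    mul_le_mul hM hexp (by positivity) (Nat.cast_nonneg _)
  have hfin : 2 * L ≤ (x : ℝ) / (2 * (h + 1)) * (Real.exp (-2) * (x : ℝ) ^ (-(1 - ε / 8))) := by
    have e1 : (x : ℝ) * (x : ℝ) ^ (-(1 - ε / 8)) = (x : ℝ) ^ (ε / 8) := by
      rw [← Real.rpow_one_add' hx0.le (by linarith)]
      congr 1
      ring
    have e2 : (x : ℝ) / (2 * (h + 1)) * (Real.exp (-2) * (x : ℝ) ^ (-(1 - ε / 8))) =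
        (x : ℝ) ^ (ε / 8) / (2 * (h + 1) * Real.exp 2) := by
      rw [← e1, Real.exp_neg]
      field_simp
    rw [e2, le_div_iff₀ (by positivity)]
    have e3 : (h : ℝ) ≤ 2 * L ^ 3 := by
      have e4 : (2 - ε / 2) * (L ^ 2 * Real.log L) ≤ 2 * (L ^ 2 * L) := by
        apply mul_le_mul (by linarith) _ (by positivity) (by norm_num)
        exact mul_le_mul_of_nonneg_left h6 (by positivity)
      have e5 : L ^ 2 * L = L ^ 3 := by ring
      rw [e5] at e4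
      linarith
    have e4 : (1 : ℝ) ≤ L ^ 3 := one_le_pow₀ h3
    have e5 : L ≤ L ^ 3 := by nlinarith [sq_nonneg (L - 1), mul_nonneg (show 0 ≤ L by linarith) (show 0 ≤ L - 1 by linarith)]
    have e6 : (x : ℝ) ^ (ε / 8) = (x : ℝ) ^ (ε / 16) * (x : ℝ) ^ (ε / 16) := by
      rw [← Real.rpow_add hx0]
      congr 1
      ring
    have e7 : 12 * Real.exp 2 * L ^ 3 * L ≤ (x : ℝ) ^ (ε / 16) * (x : ℝ) ^ (ε / 16) :=
      mul_le_mul h7 (by linarith) (by linarith) (by positivity)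
    rw [e6]
    refine le_trans ?_ e7
    have e8 : 2 * L * (2 * ((h : ℝ) + 1) * Real.exp 2) ≤ 2 * L * (2 * (3 * L ^ 3) * Real.exp 2) := by
      apply mul_le_mul_of_nonneg_left _ (by linarith)
      apply mul_le_mul_of_nonneg_right _ (Real.exp_pos 2).le
      linarith
    refine e8.trans (le_of_eq ?_)
    ring
  linarith

theorem lower (hA : IsCramer μ A) {ε : ℝ} (hε : 0 < ε) (hε1 : ε ≤ 1) : ∀ᵐ ω ∂μ, ∀ᶠ x : ℕ in atTop,
    ∃ N, x < N ∧ N ≤ 2 * x ∧ ∀ a ∈ A ω, 3 ≤ a → (a : ℝ) ≤ (2 - ε) * g N → N - a ∉ A ω := by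
  classical
  have hκ : 0 < 2 - ε / 2 := by linarith
  obtain ⟨B, hB⟩ : ∃ B : ℕ → Set Ω, B = fun (x : ℕ) => {ω | ¬ ∃ N, x < N ∧ N ≤ 2 * x ∧
    ∀ a ∈ A ω, 3 ≤ a → (a : ℝ) ≤ (2 - ε) * g N → N - a ∉ A ω} := ⟨_, rfl⟩
  have hs : Summable (fun N : ℕ => 2 * (N : ℝ) ^ (-(2 : ℝ))) := (Real.summable_nat_rpow.2 (by norm_num)).mul_left 2
  have hbound : ∀ᶠ x : ℕ in atTop, μ.real (B x) ≤ 2 * (x : ℝ) ^ (-(2 : ℝ)) := by
    filter_upwards [tail_small hA hε hε1, numeric_low hε hε1, g_double hε hε1, ev_hh_small hκ,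
      hl.eventually_ge_atTop 2, eventually_ge_atTop 3] with x h1 h2 h3 h4 h5 h6
    obtain ⟨h, hh'⟩ : ∃ h : ℕ, h = hh (2 - ε / 2) x := ⟨_, rfl⟩
    rw [← hh'] at h1 h2 h3 h4
    obtain ⟨Y, hY⟩ : ∃ Y : ℝ, Y = (1 + ε / 8) * YY h := ⟨_, rfl⟩
    rw [← hY] at h1 h2
    have hhx : h < x := by
      have : (h : ℝ) < x := by
        have : (0 : ℝ) ≤ h := Nat.cast_nonneg h
        linarith
      exact_mod_cast this
    obtain ⟨I, hI⟩ : ∃ I : Finset (Finset ℕ), I = (Icc 3 h).powerset.filter (fun T => T.card ≤ ⌊Y⌋₊) := ⟨_, rfl⟩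
    obtain ⟨E, hE⟩ : ∃ E : Finset ℕ → Set Ω, E = fun (T : Finset ℕ) => {ω | tr A (Icc 3 h) ω = T ∧
      ∀ i ∈ range (x / (h + 1)), ∃ a ∈ T, x + (i + 1) * (h + 1) - a ∈ A ω} := ⟨_, rfl⟩
    have hsub : B x ⊆ {ω | ¬ (tr A (Icc 3 h) ω).card ≤ ⌊Y⌋₊} ∪ ⋃ T ∈ I, E T := by
      intro ω hω
      rw [hB] at hω
      have hω' : ¬ ∃ N, x < N ∧ N ≤ 2 * x ∧ ∀ a ∈ A ω, 3 ≤ a → (a : ℝ) ≤ (2 - ε) * g N → N - a ∉ A ω := hω
      push Not at hω'
      by_cases hc : (tr A (Icc 3 h) ω).card ≤ ⌊Y⌋₊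
      · right
        refine Set.mem_biUnion (x := tr A (Icc 3 h) ω) ?_ ?_
        · rw [hI]
          show tr A (Icc 3 h) ω ∈ (Icc 3 h).powerset.filter (fun T => T.card ≤ ⌊Y⌋₊)
          rw [mem_filter, mem_powerset]
          exact ⟨fun n hn => (mem_tr.1 hn).1, hc⟩
        · rw [hE]
          refine ⟨rfl, fun i hi => ?_⟩
          rw [mem_range] at hi
          have e1 : (i + 1) * (h + 1) ≤ x / (h + 1) * (h + 1) := Nat.mul_le_mul_right _ hi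
          have e2 := Nat.div_mul_le_self x (h + 1)
          have e3 : h + 1 ≤ (i + 1) * (h + 1) := Nat.le_mul_of_pos_left _ (by omega)
          obtain ⟨a, ha1, ha2, ha3, ha4⟩ := hω' (x + (i + 1) * (h + 1)) (by omega) (by omega)
          refine ⟨a, mem_tr.2 ⟨?_, ha1⟩, ha4⟩
          rw [mem_Icc]
          refine ⟨ha2, ?_⟩
          have e4 := h3 (x + (i + 1) * (h + 1)) (by omega) (by omega)
          have e5 : (a : ℝ) < h := lt_of_le_of_lt ha3 e4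
          have e6 : a < h := by exact_mod_cast e5
          omega
      · left
        exact hc
    have hEb : ∀ T ∈ I, μ.real (E T) ≤ cramerOn (Icc 3 h) T * (x : ℝ) ^ (-(2 : ℝ)) := by
      intro T hT
      rw [hI, mem_filter, mem_powerset] at hT
      rw [hE]
      have e0 : (T.card : ℝ) ≤ Y := by
        by_cases hY0 : 0 ≤ Y
        · exact (Nat.le_floor_iff hY0).1 hT.2
        · push Not at hY0
          exfalso
          have : 0 ≤ YY h := by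
            unfold YY
            exact div_nonneg (Nat.cast_nonneg h) (Real.log_natCast_nonneg h)
          rw [hY] at hY0
          nlinarith
      refine (real_given hA hT.1 h5 hhx (M := x / (h + 1)) e0).trans ?_
      exact mul_le_mul_of_nonneg_left h2 (cramerOn_nonneg (fun n hn => (mem_Icc.1 hn).1) hT.1)
    have h7 : μ.real (⋃ T ∈ I, E T) ≤ (x : ℝ) ^ (-(2 : ℝ)) := by
      refine (measureReal_biUnion_finset_le I E).trans ?_
      refine (sum_le_sum hEb).trans ?_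
      rw [← sum_mul]
      have e1 : ∑ T ∈ I, cramerOn (Icc 3 h) T ≤ 1 := by
        have e2 : ∑ T ∈ (Icc 3 h).powerset, cramerOn (Icc 3 h) T = 1 := sum_cramerOn _
        rw [← e2, hI]
        refine sum_le_sum_of_subset_of_nonneg (filter_subset _ _) (fun T hT _ => ?_)
        exact cramerOn_nonneg (fun n hn => (mem_Icc.1 hn).1) (mem_powerset.1 hT)
      have e3 : 0 ≤ (x : ℝ) ^ (-(2 : ℝ)) := by positivity
      nlinarith
    have h8 := (measureReal_mono (μ := μ) hsub (measure_ne_top _ _)).trans (measureReal_union_le _ _)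
    linarith
  have h1 := ae_eventually_notMem (tsum_ne_top_of_real (μ := μ) hs (f := B) hbound)
  filter_upwards [h1] with ω hω
  filter_upwards [hω] with x hx
  rw [hB] at hx
  exact not_not.1 hx

end Pool.Agent.Q120.GB
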