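import Pool.Agent.Q120.GB.Basic

/-!
# The least summand in Cramér's model: upper bound
-/

set_option autoImplicit false

namespace Pool.Agent.Q120.GB

open Finset MeasureTheory Filter Pool.Agent.Q120.ET Pool.Agent.Q120.MF Pool.Agent.Q120.PT Pool.Agent.Q120.AD
  Pool.Agent.Q120.RN

variable {Ω : Type*} [MeasurableSpace Ω] {μ : Measure Ω} [IsProbabilityMeasure μ] {A : Ω → Set ℕ}

theorem loglog_le : ∀ᶠ x : ℕ in atTop, Real.log (Real.log (x : ℝ)) ≤ Real.log x := by
  filter_upwards [hl.eventually_ge_atTop 1] with n hn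
  have := Real.log_le_sub_one_of_pos (show 0 < Real.log (n : ℝ) by linarith)
  linarith

theorem ev_hh_small {κ : ℝ} (hκ : 0 < κ) : ∀ᶠ x : ℕ in atTop, ((hh κ x : ℝ) + 1) * 4 ≤ x := by
  filter_upwards [tll.eventually_ge_atTop 1, hl.eventually_ge_atTop 1, ev_pow (4 * (κ + 1)) 1 one_pos,
    loglog_le] with x h1 h2 h3 h4
  rw [Real.rpow_one] at h3
  have h5 : (hh κ x : ℝ) ≤ κ * (Real.log x ^ 2 * Real.log (Real.log x)) := by
    unfold hh g
    exact Nat.floor_le (by positivity)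
  have h6 : Real.log (x : ℝ) ^ 2 * Real.log (Real.log x) ≤ Real.log x ^ 2 * Real.log x :=
    mul_le_mul_of_nonneg_left h4 (by positivity)
  have h7 : κ * (Real.log (x : ℝ) ^ 2 * Real.log (Real.log x)) ≤ κ * Real.log x ^ 3 := by
    apply mul_le_mul_of_nonneg_left _ hκ.le
    nlinarith
  have h8 : (1 : ℝ) ≤ Real.log x ^ 3 := one_le_pow₀ h2
  nlinarith

/-- The probability that `N` is not a sum with a small summand. -/
theorem real_no_rep (hA : IsCramer μ A) {N h : ℕ} (hh3 : 3 ≤ h) (hN : 2 * h < N) :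
    μ.real {ω | ∀ a ∈ Icc 3 h, ¬ (a ∈ A ω ∧ N - a ∈ A ω)} ≤
      Real.exp (-(((h : ℝ) - 2) * (1 / (Real.log h * Real.log N)))) := by
  classical
  have h1 : {ω | ∀ a ∈ Icc 3 h, ¬ (a ∈ A ω ∧ N - a ∈ A ω)} =
      {ω | ∀ a ∈ Icc 3 h, ¬ ∀ m ∈ ({a, N - a} : Finset ℕ), m ∈ A ω} := by
    ext ω
    refine forall₂_congr (fun a _ => ?_)
    apply not_congr
    simp
  rw [h1]
  have h2 := real_none_in hA (Icc 3 h) (fun a => ({a, N - a} : Finset ℕ)) (fun a ha m hm => by
    rw [mem_Icc] at ha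
    rw [mem_insert, mem_singleton] at hm
    omega) (fun a ha b hb hab => by
    rw [mem_Icc] at ha hb
    rw [Finset.disjoint_left]
    intro m hm1 hm2
    rw [mem_insert, mem_singleton] at hm1 hm2
    omega) (p := 1 / (Real.log h * Real.log N)) (fun a ha => by
    rw [mem_Icc] at ha
    rw [prod_pair (by omega), one_div_mul_one_div]
    have h3 := one_lt_log ha.1
    have h4 := one_lt_log (show 3 ≤ N - a by omega)
    apply one_div_le_one_div_of_le (by positivity)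
    have h5 : Real.log (a : ℝ) ≤ Real.log h := Real.log_le_log (by
      have : 0 < a := by omega
      exact_mod_cast this) (by exact_mod_cast ha.2)
    have h6 : Real.log ((N - a : ℕ) : ℝ) ≤ Real.log N := Real.log_le_log (by
      have : 0 < N - a := by omega
      exact_mod_cast this) (by exact_mod_cast (Nat.sub_le N a))
    exact mul_le_mul h5 h6 (by linarith) (by linarith))
  refine h2.trans (le_of_eq ?_)
  rw [Nat.card_Icc]
  have : ((h + 1 - 3 : ℕ) : ℝ) = (h : ℝ) - 2 := by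
    rw [Nat.cast_sub (by omega)]
    push_cast
    ring
  rw [this]

theorem upper (hA : IsCramer μ A) {ε : ℝ} (hε : 0 < ε) (hε1 : ε ≤ 1) : ∀ᵐ ω ∂μ, ∀ᶠ N : ℕ in atTop,
    ∃ a ∈ A ω, 3 ≤ a ∧ (a : ℝ) ≤ (2 + ε) * g N ∧ 2 * a < N ∧ N - a ∈ A ω := by
  obtain ⟨B, hB⟩ : ∃ B : ℕ → Set Ω, B = fun (N : ℕ) =>
    {ω | ∀ a ∈ Icc 3 (hh (2 + ε) N), ¬ (a ∈ A ω ∧ N - a ∈ A ω)} := ⟨_, rfl⟩
  have hs : Summable (fun N : ℕ => (N : ℝ) ^ (-(1 + ε / 16))) := Real.summable_nat_rpow.2 (by linarith)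
  have hκ : 0 < 2 + ε := by linarith
  have hbound : ∀ᶠ N : ℕ in atTop, μ.real (B N) ≤ (N : ℝ) ^ (-(1 + ε / 16)) := by
    filter_upwards [(hh_tendsto hκ).eventually_ge_atTop 3, ev_hh_small hκ, log_hh_le hκ (show 0 < ε / 8 by positivity),
      hl.eventually_ge_atTop 1, tll.eventually_ge_atTop 1, eventually_ge_atTop 3,
      g_tendsto.eventually_ge_atTop (6 / ε)] with N h1 h2 h3 h4 h5 h6 h7
    obtain ⟨h, hh'⟩ : ∃ h : ℕ, h = hh (2 + ε) N := ⟨_, rfl⟩
    rw [hB]
    simp only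
    rw [← hh'] at h1 h2 h3 ⊢
    have hN : 2 * h < N := by
      have : ((2 * h : ℕ) : ℝ) < N := by
        push_cast
        have : (0 : ℝ) ≤ h := Nat.cast_nonneg h
        linarith
      exact_mod_cast this
    refine (real_no_rep hA h1 hN).trans ?_
    have hN0 : (0 : ℝ) < N := by
      have : 0 < N := by omega
      exact_mod_cast this
    rw [Real.rpow_def_of_pos hN0, Real.exp_le_exp]
    obtain ⟨L, hL⟩ : ∃ L : ℝ, L = Real.log N := ⟨_, rfl⟩
    obtain ⟨l, hlL⟩ : ∃ l : ℝ, l = Real.log L := ⟨_, rfl⟩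
    rw [← hL, ← hlL] at h3 h5
    rw [← hL] at h4 ⊢
    have h8 : (2 + ε / 2) * (L ^ 2 * l) ≤ (h : ℝ) - 2 := by
      have h9 : (2 + ε) * g N < h + 1 := by
        rw [hh']
        exact Nat.lt_floor_add_one _
      unfold g at h9 h7
      rw [← hL, ← hlL] at h9 h7
      rw [div_le_iff₀ hε] at h7
      nlinarith
    have h9 : 0 < Real.log (h : ℝ) := by
      have := one_lt_log h1
      linarith
    have h10 : (1 + ε / 16) * L ≤ ((h : ℝ) - 2) * (1 / (Real.log h * L)) := by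
      rw [mul_one_div, le_div_iff₀ (by positivity)]
      refine le_trans ?_ h8
      have h11 : (1 + ε / 16) * L * (Real.log h * L) ≤ (1 + ε / 16) * L * ((2 + ε / 8) * l * L) := by
        apply mul_le_mul_of_nonneg_left _ (by positivity)
        exact mul_le_mul_of_nonneg_right h3 (by linarith)
      have h12 : (1 + ε / 16) * (2 + ε / 8) ≤ 2 + ε / 2 := by nlinarith
      have h13 : (1 + ε / 16) * L * ((2 + ε / 8) * l * L) = ((1 + ε / 16) * (2 + ε / 8)) * (L ^ 2 * l) := by ring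
      rw [h13] at h11
      exact h11.trans (mul_le_mul_of_nonneg_right h12 (by positivity))
    linarith
  have h1 := ae_eventually_notMem (tsum_ne_top_of_real (μ := μ) hs (f := B) hbound)
  filter_upwards [h1] with ω hω
  filter_upwards [hω, ev_hh_small hκ, g_tendsto.eventually_ge_atTop 0] with N hN hN2 hg
  rw [hB] at hN
  have hN' : ¬ ∀ a ∈ Icc 3 (hh (2 + ε) N), ¬ (a ∈ A ω ∧ N - a ∈ A ω) := hN
  push Not at hN'
  obtain ⟨a, ha, ha1, ha2⟩ := hN'
  rw [mem_Icc] at ha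
  have h2 : (a : ℝ) ≤ hh (2 + ε) N := by exact_mod_cast ha.2
  have h3 : (hh (2 + ε) N : ℝ) ≤ (2 + ε) * g N := Nat.floor_le (by positivity)
  refine ⟨a, ha1, ha.1, by linarith, ?_, ha2⟩
  have h4 : ((2 * a : ℕ) : ℝ) < N := by
    push_cast
    have : (0 : ℝ) ≤ a := Nat.cast_nonneg a
    linarith
  exact_mod_cast h4

end Pool.Agent.Q120.GB
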